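import Pool.Agent.V11182.NuArith

/-!
# The antidiagonal chain is the heaviest nu-chain on every grid
-/

namespace Pool.Agent.Results.MP_00a158_co.AntidiagonalOptimal

open Finset

/-- the cells `(i, j)`, `1 ≤ i ≤ m`, `1 ≤ j ≤ n`, of the grid graph -/
def cells (m n : ℕ) : Finset (ℕ × ℕ) := Icc 1 m ×ˢ Icc 1 n

/-- adjacency of cells -/
def Adj (p q : ℕ × ℕ) : Prop := |(p.1 : ℤ) - q.1| + |(p.2 : ℤ) - q.2| = 1

instance (p q : ℕ × ℕ) : Decidable (Adj p q) := by unfold Adj; infer_instance

/-- order ideals of the grid -/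
def IsIdeal (m n : ℕ) (A : Finset (ℕ × ℕ)) : Prop :=
  A ⊆ cells m n ∧ ∀ p ∈ A, ∀ q ∈ cells m n, q.1 ≤ p.1 → q.2 ≤ p.2 → q ∈ A

/-- the closed neighbourhood of a set of cells -/
def nbhd (m n : ℕ) (A : Finset (ℕ × ℕ)) : Finset (ℕ × ℕ) :=
  (cells m n).filter (fun p => p ∈ A ∨ ∃ q ∈ A, Adj p q)

/-- `ν(s)`: the least size of the closed neighbourhood of an order ideal with `s` cells -/
noncomputable def nu (m n s : ℕ) : ℕ :=
  sInf {k | ∃ A, IsIdeal m n A ∧ A.card = s ∧ (nbhd m n A).card = k}

/-- `c 0, …, c L` is a `ν`-chain -/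
def IsNuChain (m n L : ℕ) (c : ℕ → ℕ) : Prop :=
  (∀ l ≤ L, c l ≤ m * n) ∧ ∀ l < L, nu m n (c l) ≤ c (l + 1)

/-- the weight of a chain `c 0, …, c L` -/
def weight (m n L : ℕ) (c : ℕ → ℕ) : ℕ := ∑ l ∈ range (L + 1), min (c l) (m * n - c l)

/-- the terms of the antidiagonal chain -/
def antidiag (m n l : ℕ) : ℕ := ((cells m n).filter (fun p => p.1 + p.2 ≤ l + 2)).card

/-- the weight `D(m, n)` of the antidiagonal chain `a_0, …, a_{m+n-2}` -/
def D (m n : ℕ) : ℕ := weight m n (m + n - 2) (antidiag m n)

open Pool.Agent.V11182.NuArith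

lemma mem_cells {m n : ℕ} {p : ℕ × ℕ} :
    p ∈ cells m n ↔ (1 ≤ p.1 ∧ p.1 ≤ m) ∧ 1 ≤ p.2 ∧ p.2 ≤ n := by
  simp [cells]

lemma card_cells (m n : ℕ) : (cells m n).card = m * n := by simp [cells]

lemma adj_up (x y : ℕ) : Adj (x, y + 1) (x, y) := by
  unfold Adj
  simp

lemma adj_right (x y : ℕ) : Adj (x + 1, y) (x, y) := by
  unfold Adj
  simp

/-- counting cells below an antidiagonal -/
lemma card_below (k : ℕ) (T : Finset (ℕ × ℕ))
    (hT : ∀ p ∈ T, 1 ≤ p.1 ∧ 1 ≤ p.2 ∧ p.1 + p.2 ≤ k + 1) : T.card ≤ tri k := by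
  induction k generalizing T with
  | zero =>
    have : T = ∅ := by
      rw [eq_empty_iff_forall_notMem]
      intro p hp
      have := hT p hp
      omega
    rw [this]; exact Nat.zero_le _
  | succ k ih =>
    rw [← card_filter_add_card_filter_not (s := T) (fun p => p.1 + p.2 ≤ k + 1), tri_succ]
    apply add_le_add
    · apply ih
      intro p hp
      rw [mem_filter] at hp
      exact ⟨(hT p hp.1).1, (hT p hp.1).2.1, hp.2⟩
    · have h1 : ((T.filter (fun p => ¬ p.1 + p.2 ≤ k + 1)).image Prod.fst).card ≤ k + 1 := by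
        have h2 : (T.filter (fun p => ¬ p.1 + p.2 ≤ k + 1)).image Prod.fst ⊆ Icc 1 (k + 1) := by
          intro x hx
          rw [mem_image] at hx
          obtain ⟨p, hp, rfl⟩ := hx
          rw [mem_filter] at hp
          have := hT p hp.1
          rw [mem_Icc]
          omega
        have := card_le_card h2
        simpa using this
      rwa [card_image_of_injOn] at h1
      intro p hp q hq hpq
      simp only [coe_filter, Set.mem_ofPred_eq] at hp hq
      have h3 := hT p hp.1
      have h4 := hT q hq.1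
      have h5 : p.1 = q.1 := hpq
      exact Prod.ext h5 (by omega)

section ideal

variable {m n : ℕ} {A : Finset (ℕ × ℕ)}

lemma ideal_swap (hA : IsIdeal m n A) : IsIdeal n m (A.image Prod.swap) := by
  constructor
  · intro p hp
    rw [mem_image] at hp
    obtain ⟨q, hq, rfl⟩ := hp
    have := mem_cells.mp (hA.1 hq)
    exact mem_cells.mpr ⟨this.2, this.1⟩
  · intro p hp q hq h1 h2
    rw [mem_image] at hp ⊢
    obtain ⟨p', hp', rfl⟩ := hp
    refine ⟨q.swap, hA.2 p' hp' _ ?_ h2 h1, Prod.swap_swap q⟩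
    have := mem_cells.mp hq
    exact mem_cells.mpr ⟨this.2, this.1⟩

lemma exists_top (A : Finset (ℕ × ℕ)) (x : ℕ) : ∃ y, 1 ≤ y ∧ (x, y) ∉ A := by
  by_contra hcon
  push Not at hcon
  have h1 : (Icc 1 (A.card + 1)).image (fun y => (x, y)) ⊆ A := by
    intro p hp
    rw [mem_image] at hp
    obtain ⟨y, hy, rfl⟩ := hp
    exact hcon y (mem_Icc.mp hy).1
  have h2 := card_le_card h1
  rw [card_image_of_injective _ (fun a b h => by simpa using h)] at h2
  simp at h2

/-- the first missing height of a column -/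
noncomputable def top (A : Finset (ℕ × ℕ)) (x : ℕ) : ℕ := by
  classical exact Nat.find (exists_top A x)

lemma top_spec (A : Finset (ℕ × ℕ)) (x : ℕ) : 1 ≤ top A x ∧ (x, top A x) ∉ A := by
  classical
  unfold top
  exact Nat.find_spec (exists_top A x)

lemma top_min {x y : ℕ} (h : y < top A x) (hy : 1 ≤ y) : (x, y) ∈ A := by
  classical
  unfold top at h
  have := Nat.find_min (exists_top A x) h
  by_contra hcon
  exact this ⟨hy, hcon⟩

lemma mem_iff_top (hA : IsIdeal m n A) {x y : ℕ} (hy : 1 ≤ y) :
    (x, y) ∈ A ↔ y < top A x := by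
  constructor
  · intro h
    by_contra hcon
    push Not at hcon
    have h1 := mem_cells.mp (hA.1 h)
    simp only at h1
    have h2 := top_spec A x
    exact h2.2 (hA.2 _ h (x, top A x) (mem_cells.mpr ⟨h1.1, h2.1, by omega⟩) le_rfl hcon)
  · intro h
    exact top_min h hy

lemma top_le (hA : IsIdeal m n A) (x : ℕ) : top A x ≤ n + 1 := by
  by_contra hcon
  push Not at hcon
  have h := top_min (A := A) (x := x) (y := n + 1) hcon (by omega)
  have := mem_cells.mp (hA.1 h)
  simp only at this
  omega

lemma top_anti (hA : IsIdeal m n A) {x x' : ℕ} (hx : 1 ≤ x) (h : x ≤ x') :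
    top A x' ≤ top A x := by
  by_contra hcon
  push Not at hcon
  have h1 := top_spec A x
  have h2 := top_min hcon h1.1
  have h3 := mem_cells.mp (hA.1 h2)
  simp only at h3
  exact h1.2 (hA.2 _ h2 (x, top A x) (mem_cells.mpr ⟨⟨hx, by simp only; omega⟩, h3.2⟩) h le_rfl)

/-- boundary cells -/
def bd (m n : ℕ) (A : Finset (ℕ × ℕ)) : Finset (ℕ × ℕ) := (nbhd m n A) \ A

lemma card_bd (hA : IsIdeal m n A) : (nbhd m n A).card = A.card + (bd m n A).card := by
  have h : A ⊆ nbhd m n A := by
    intro p hp
    exact mem_filter.mpr ⟨hA.1 hp, Or.inl hp⟩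
  unfold bd
  rw [card_sdiff_of_subset h]
  have := card_le_card h
  omega

lemma top_mem_bd (hA : IsIdeal m n A) {x : ℕ} (h2 : 2 ≤ top A x)
    (hn : top A x ≤ n) : (x, top A x) ∈ bd m n A := by
  have h1 := top_spec A x
  have h3 : (x, top A x - 1) ∈ A := top_min (by omega) (by omega)
  have h4 := mem_cells.mp (hA.1 h3)
  simp only at h4
  unfold bd nbhd
  rw [mem_sdiff, mem_filter]
  refine ⟨⟨mem_cells.mpr ⟨h4.1, h1.1, hn⟩, Or.inr ⟨_, h3, ?_⟩⟩, h1.2⟩
  have := adj_up x (top A x - 1)
  rwa [Nat.sub_add_cancel h1.1] at this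

/-- the first missing position of a row -/
noncomputable def rgt (A : Finset (ℕ × ℕ)) (y : ℕ) : ℕ := top (A.image Prod.swap) y

lemma mem_swap {x y : ℕ} : (y, x) ∈ A.image Prod.swap ↔ (x, y) ∈ A := by
  rw [mem_image]
  constructor
  · rintro ⟨q, hq, h⟩
    have : q = (x, y) := by
      rw [← Prod.swap_swap q, h]
      rfl
    rwa [← this]
  · intro h
    exact ⟨(x, y), h, rfl⟩

lemma mem_iff_rgt (hA : IsIdeal m n A) {x y : ℕ} (hx : 1 ≤ x) :
    (x, y) ∈ A ↔ x < rgt A y := by
  rw [← mem_swap (A := A)]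
  exact mem_iff_top (ideal_swap hA) hx

lemma rgt_pos (y : ℕ) : 1 ≤ rgt A y := (top_spec _ _).1

lemma rgt_le (hA : IsIdeal m n A) (y : ℕ) : rgt A y ≤ m + 1 := top_le (ideal_swap hA) y

lemma rgt_anti (hA : IsIdeal m n A) {y y' : ℕ} (hy : 1 ≤ y) (h : y ≤ y') :
    rgt A y' ≤ rgt A y := top_anti (ideal_swap hA) hy h

lemma rgt_mem_bd (hA : IsIdeal m n A) {y : ℕ} (h2 : 2 ≤ rgt A y)
    (hm : rgt A y ≤ m) : (rgt A y, y) ∈ bd m n A := by
  have h3 : (rgt A y - 1, y) ∈ A := (mem_iff_rgt hA (by omega)).mpr (by omega)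
  have h4 := mem_cells.mp (hA.1 h3)
  simp only at h4
  have h5 : (rgt A y, y) ∉ A := by
    rw [mem_iff_rgt hA (rgt_pos y)]
    exact lt_irrefl _
  unfold bd nbhd
  rw [mem_sdiff, mem_filter]
  refine ⟨⟨mem_cells.mpr ⟨⟨rgt_pos y, hm⟩, h4.2⟩, Or.inr ⟨_, h3, ?_⟩⟩, h5⟩
  have := adj_right (rgt A y - 1) y
  rwa [Nat.sub_add_cancel (rgt_pos y)] at this

lemma card_col {S : Finset ℕ} (f : ℕ → ℕ) : (S.image (fun x => (x, f x))).card = S.card :=
  card_image_of_injective _ (fun _ _ h => (Prod.mk.inj h).1)

lemma card_row {S : Finset ℕ} (g : ℕ → ℕ) : (S.image (fun y => (g y, y))).card = S.card :=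
  card_image_of_injective _ (fun _ _ h => (Prod.mk.inj h).2)

/-- The isoperimetric inequality for order ideals of the grid. -/
theorem iso (hA : IsIdeal m n A) (hnm : n ≤ m) (hb : (bd m n A).card < n) :
    A.card ≤ tri ((bd m n A).card - 1) ∨ m * n - A.card ≤ tri ((bd m n A).card) := by
  obtain ⟨y0, hy0, hrow⟩ : ∃ y ∈ Icc 1 n, rgt A y = 1 ∨ rgt A y = m + 1 := by
    by_contra hcon
    push Not at hcon
    have h1 : (Icc 1 n).image (fun y => (rgt A y, y)) ⊆ bd m n A := by
      intro p hp
      rw [mem_image] at hp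
      obtain ⟨y, hy, rfl⟩ := hp
      have h2 := hcon y hy
      have h3 := rgt_pos (A := A) y
      have h4 := rgt_le hA y
      exact rgt_mem_bd hA (by omega) (by omega)
    have h2 := card_le_card h1
    rw [card_row, Nat.card_Icc] at h2
    omega
  obtain ⟨x0, hx0, hcol⟩ : ∃ x ∈ Icc 1 m, top A x = 1 ∨ top A x = n + 1 := by
    by_contra hcon
    push Not at hcon
    have h1 : (Icc 1 m).image (fun x => (x, top A x)) ⊆ bd m n A := by
      intro p hp
      rw [mem_image] at hp
      obtain ⟨x, hx, rfl⟩ := hp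
      have h2 := hcon x hx
      have h3 := (top_spec A x).1
      have h4 := top_le hA x
      exact top_mem_bd hA (by omega) (by omega)
    have h2 := card_le_card h1
    rw [card_col, Nat.card_Icc] at h2
    omega
  rw [mem_Icc] at hy0 hx0
  rcases hrow with hrow | hrow
  · -- an empty row
    left
    have htop : ∀ x, 1 ≤ x → top A x ≤ n := by
      intro x hx
      have h1 : ¬ (1, y0) ∈ A := by rw [mem_iff_rgt hA le_rfl]; omega
      rw [mem_iff_top hA hy0.1] at h1
      have h2 := top_anti hA le_rfl hx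
      omega
    have hcol' : top A x0 = 1 := by
      have := htop x0 hx0.1
      omega
    have hrgt : ∀ y, 1 ≤ y → rgt A y ≤ m := by
      intro y hy
      have h1 : ¬ (x0, 1) ∈ A := by rw [mem_iff_top hA le_rfl]; omega
      rw [mem_iff_rgt hA hx0.1] at h1
      have h2 := rgt_anti hA le_rfl hy
      omega
    have key : ∀ p ∈ A, p.1 + p.2 ≤ (bd m n A).card := by
      rintro ⟨i, j⟩ hp
      have hc := mem_cells.mp (hA.1 hp)
      simp only at hc
      have hi := (mem_iff_top hA hc.2.1).mp hp
      have hj := (mem_iff_rgt hA hc.1.1).mp hp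
      have hd : Disjoint ((Icc 1 i).image (fun x => (x, top A x)))
          ((Icc 1 j).image (fun y => (rgt A y, y))) := by
        rw [disjoint_left]
        intro q hq hq'
        rw [mem_image] at hq hq'
        obtain ⟨x, hx, rfl⟩ := hq
        obtain ⟨y, hy, hxy⟩ := hq'
        rw [mem_Icc] at hx hy
        have h1 := (Prod.mk.inj hxy).2
        have h2 := top_anti hA hx.1 hx.2
        omega
      have hsub : (Icc 1 i).image (fun x => (x, top A x)) ∪
          (Icc 1 j).image (fun y => (rgt A y, y)) ⊆ bd m n A := by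
        apply union_subset
        · intro q hq
          rw [mem_image] at hq
          obtain ⟨x, hx, rfl⟩ := hq
          rw [mem_Icc] at hx
          have h2 := top_anti hA hx.1 hx.2
          exact top_mem_bd hA (by omega) (htop x hx.1)
        · intro q hq
          rw [mem_image] at hq
          obtain ⟨y, hy, rfl⟩ := hq
          rw [mem_Icc] at hy
          have h2 := rgt_anti hA hy.1 hy.2
          exact rgt_mem_bd hA (by omega) (hrgt y hy.1)
      have h1 := card_le_card hsub
      rw [card_union_of_disjoint hd, card_col, card_row, Nat.card_Icc, Nat.card_Icc] at h1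
      simp only
      omega
    apply card_below
    intro p hp
    have h1 := key p hp
    have h2 := mem_cells.mp (hA.1 hp)
    omega
  · -- a full row
    right
    have htop : ∀ x, 1 ≤ x → x ≤ m → 2 ≤ top A x := by
      intro x hx hx'
      have h1 : (x, y0) ∈ A := by rw [mem_iff_rgt hA hx]; omega
      rw [mem_iff_top hA hy0.1] at h1
      omega
    have hcol' : top A x0 = n + 1 := by
      have := htop x0 hx0.1 hx0.2
      omega
    have hrgt : ∀ y, 1 ≤ y → y ≤ n → 2 ≤ rgt A y := by
      intro y hy hy'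
      have h1 : (x0, y) ∈ A := by rw [mem_iff_top hA hy]; omega
      rw [mem_iff_rgt hA hx0.1] at h1
      omega
    have hcard : (cells m n \ A).card = m * n - A.card := by
      rw [card_sdiff_of_subset hA.1, card_cells]
    rw [← hcard]
    have key : ∀ p ∈ cells m n \ A, (m + 1 - p.1) + (n + 1 - p.2) ≤ (bd m n A).card + 1 := by
      rintro ⟨i, j⟩ hp
      rw [mem_sdiff] at hp
      have hc := mem_cells.mp hp.1
      simp only at hc
      have hi : top A i ≤ j := by
        have := hp.2
        rw [mem_iff_top hA hc.2.1] at this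
        omega
      have hj : rgt A j ≤ i := by
        have := hp.2
        rw [mem_iff_rgt hA hc.1.1] at this
        omega
      have hint : ((Icc i m).image (fun x => (x, top A x))) ∩
          ((Icc j n).image (fun y => (rgt A y, y))) ⊆ {(i, j)} := by
        intro q hq
        rw [mem_inter, mem_image, mem_image] at hq
        obtain ⟨⟨x, hx, rfl⟩, ⟨y, hy, hxy⟩⟩ := hq
        rw [mem_Icc] at hx hy
        obtain ⟨h1, h2⟩ := Prod.mk.inj hxy
        have h3 := top_anti hA hc.1.1 hx.1
        have h4 := rgt_anti hA hc.2.1 hy.1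
        rw [mem_singleton]
        refine Prod.ext ?_ ?_ <;> simp only <;> omega
      have hsub : (Icc i m).image (fun x => (x, top A x)) ∪
          (Icc j n).image (fun y => (rgt A y, y)) ⊆ bd m n A := by
        apply union_subset
        · intro q hq
          rw [mem_image] at hq
          obtain ⟨x, hx, rfl⟩ := hq
          rw [mem_Icc] at hx
          have h2 := top_anti hA hc.1.1 hx.1
          exact top_mem_bd hA (htop x (by omega) hx.2) (by omega)
        · intro q hq
          rw [mem_image] at hq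
          obtain ⟨y, hy, rfl⟩ := hq
          rw [mem_Icc] at hy
          have h2 := rgt_anti hA hc.2.1 hy.1
          exact rgt_mem_bd hA (hrgt y (by omega) hy.2) (by omega)
      have h1 := card_le_card hsub
      have h2 := card_union_add_card_inter ((Icc i m).image (fun x => (x, top A x)))
        ((Icc j n).image (fun y => (rgt A y, y)))
      have h3 := card_le_card hint
      rw [card_singleton] at h3
      rw [card_col, card_row, Nat.card_Icc, Nat.card_Icc] at h2
      simp only
      omega
    have himg : ((cells m n \ A).image (fun p => (m + 1 - p.1, n + 1 - p.2))).card =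
        (cells m n \ A).card := by
      apply card_image_of_injOn
      intro p hp q hq hpq
      rw [mem_coe, mem_sdiff] at hp hq
      have h1 := mem_cells.mp hp.1
      have h2 := mem_cells.mp hq.1
      obtain ⟨h3, h4⟩ := Prod.mk.inj hpq
      exact Prod.ext (by omega) (by omega)
    rw [← himg]
    apply card_below
    intro p hp
    rw [mem_image] at hp
    obtain ⟨q, hq, rfl⟩ := hp
    have h1 := key q hq
    rw [mem_sdiff] at hq
    have h2 := mem_cells.mp hq.1
    simp only
    omega

end ideal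

/-- order ideals of every size exist -/
lemma exists_ideal {m n s : ℕ} (hs : s ≤ m * n) : ∃ A, IsIdeal m n A ∧ A.card = s := by
  obtain ⟨d, hd⟩ : ∃ d, s + d = m * n := ⟨m * n - s, by omega⟩
  induction d generalizing s with
  | zero =>
    refine ⟨cells m n, ⟨Subset.refl _, fun _ _ q hq _ _ => hq⟩, ?_⟩
    rw [card_cells]; omega
  | succ d ih =>
    obtain ⟨A, hA, hc⟩ := ih (s := s + 1) (by omega) (by omega)
    obtain ⟨p, hp, hmax⟩ := exists_max_image A (fun p => p.1 + p.2) (card_pos.mp (by omega))
    refine ⟨A.erase p, ⟨(erase_subset _ _).trans hA.1, ?_⟩, ?_⟩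
    · intro q hq r hr h1 h2
      rw [mem_erase] at hq ⊢
      refine ⟨?_, hA.2 q hq.2 r hr h1 h2⟩
      rintro rfl
      have h3 := hmax q hq.2
      exact hq.1 (Prod.ext (by omega) (by omega))
    · rw [card_erase_of_mem hp]; omega

/-- `ν(s)` is attained -/
lemma nu_spec {m n s : ℕ} (hs : s ≤ m * n) :
    ∃ A, IsIdeal m n A ∧ A.card = s ∧ nu m n s = s + (bd m n A).card := by
  obtain ⟨A, hA, hc⟩ := exists_ideal hs
  have hne : {k | ∃ A, IsIdeal m n A ∧ A.card = s ∧ (nbhd m n A).card = k}.Nonempty :=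
    ⟨_, A, hA, hc, rfl⟩
  obtain ⟨B, hB, hBc, hBn⟩ := Nat.sInf_mem hne
  refine ⟨B, hB, hBc, ?_⟩
  unfold nu
  rw [← hBn, card_bd hB, hBc]

lemma tri_lt_half {k n : ℕ} (hk : k + 1 ≤ n) : 2 * tri k < n * n := by
  rw [two_tri]
  nlinarith

lemma nu_low {m n s : ℕ} (hnm : n ≤ m) (hs1 : 1 ≤ s) (hs : 2 * s ≤ m * n) :
    s + min n (kap s + 1) ≤ nu m n s := by
  obtain ⟨A, hA, hc, hnu⟩ := nu_spec (show s ≤ m * n by omega)
  rw [hnu]
  apply Nat.add_le_add_left
  by_cases hb : (bd m n A).card < n
  · rcases iso hA hnm hb with h | h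
    · rw [hc] at h
      have h1 := kap_le h
      have h2 := kap_pos hs1
      omega
    · rw [hc] at h
      have h1 := tri_lt_half (show (bd m n A).card + 1 ≤ n by omega)
      have h2 := Nat.mul_le_mul_right n hnm
      omega
  · omega

lemma nu_high {m n s : ℕ} (hnm : n ≤ m) (hs : m * n < 2 * s) (hsm : s ≤ m * n) :
    s + min n (kap (m * n - s)) ≤ nu m n s := by
  obtain ⟨A, hA, hc, hnu⟩ := nu_spec hsm
  rw [hnu]
  apply Nat.add_le_add_left
  by_cases hb : (bd m n A).card < n
  · rcases iso hA hnm hb with h | h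
    · rw [hc] at h
      have h1 := tri_lt_half (show (bd m n A).card - 1 + 1 ≤ n by omega)
      have h2 := Nat.mul_le_mul_right n hnm
      omega
    · rw [hc] at h
      have h1 := kap_le h
      omega
  · omega

/-! ### the antidiagonal chain -/

lemma antidiag_eq {m n l : ℕ} (hn : 1 ≤ n) (hl : l < m) : antidiag m n l = al n l := by
  induction l with
  | zero =>
    have h : (cells m n).filter (fun p => p.1 + p.2 ≤ 0 + 2) = {(1, 1)} := by
      ext p
      rw [mem_filter, mem_cells, mem_singleton, Prod.ext_iff]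
      simp only
      omega
    unfold antidiag
    rw [h]
    rfl
  | succ l ih =>
    have h1 := ih (by omega)
    have h2 : (cells m n).filter (fun p => p.1 + p.2 ≤ l + 1 + 2) =
        (cells m n).filter (fun p => p.1 + p.2 ≤ l + 2) ∪
          (Icc 1 (min n (l + 2))).image (fun y => (l + 3 - y, y)) := by
      ext p
      rw [mem_union, mem_filter, mem_filter, mem_image, mem_cells]
      constructor
      · rintro ⟨h3, h4⟩
        by_cases h5 : p.1 + p.2 ≤ l + 2
        · exact Or.inl ⟨h3, h5⟩
        · right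
          refine ⟨p.2, ?_, ?_⟩
          · rw [mem_Icc]; omega
          · exact Prod.ext (by simp only; omega) rfl
      · rintro (⟨h3, h4⟩ | ⟨y, hy, rfl⟩)
        · exact ⟨h3, by omega⟩
        · rw [mem_Icc] at hy
          simp only
          omega
    unfold antidiag at h1 ⊢
    rw [h2, card_union_of_disjoint, h1, card_row, Nat.card_Icc, al]
    · omega
    · rw [disjoint_left]
      intro p hp hp'
      rw [mem_filter] at hp
      rw [mem_image] at hp'
      obtain ⟨y, hy, rfl⟩ := hp'
      rw [mem_Icc] at hy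
      simp only at hp
      omega

lemma antidiag_refl {m n l : ℕ} (hl : l + 3 ≤ m + n) :
    antidiag m n (m + n - 3 - l) + antidiag m n l = m * n := by
  have h1 := card_filter_add_card_filter_not (s := cells m n) (fun p => p.1 + p.2 ≤ l + 2)
  rw [card_cells] at h1
  have h2 : ((cells m n).filter (fun p => ¬ p.1 + p.2 ≤ l + 2)).card =
      antidiag m n (m + n - 3 - l) := by
    unfold antidiag
    apply card_bij (fun p _ => (m + 1 - p.1, n + 1 - p.2))
    · intro p hp
      rw [mem_filter, mem_cells] at hp ⊢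
      simp only
      omega
    · intro p hp q hq hpq
      rw [mem_filter, mem_cells] at hp hq
      obtain ⟨h3, h4⟩ := Prod.mk.inj hpq
      exact Prod.ext (by omega) (by omega)
    · intro p hp
      rw [mem_filter, mem_cells] at hp
      refine ⟨(m + 1 - p.1, n + 1 - p.2), ?_, ?_⟩
      · rw [mem_filter, mem_cells]
        simp only
        omega
      · exact Prod.ext (by simp only; omega) (by simp only; omega)
  unfold antidiag at h2 ⊢
  omega

lemma D_lower {m n N1 N2 : ℕ} (hn : 1 ≤ n) (hN : N1 + N2 + 2 = m + n)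
    (h1 : ∀ i < N1, 2 * al n i ≤ m * n) (h2 : ∀ i < N2, 2 * al n i ≤ m * n)
    (hm1 : N1 ≤ m) (hm2 : N2 ≤ m) :
    ∑ i ∈ range N1, al n i + ∑ i ∈ range N2, al n i ≤ D m n := by
  unfold D weight
  have h3 : m + n - 2 + 1 = N1 + N2 + 1 := by omega
  rw [h3, sum_range_succ, sum_range_add]
  have h4 : ∑ i ∈ range N1, al n i ≤
      ∑ x ∈ range N1, min (antidiag m n x) (m * n - antidiag m n x) := by
    apply sum_le_sum
    intro i hi
    rw [mem_range] at hi
    rw [antidiag_eq hn (by omega)]
    have := h1 i hi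
    omega
  have h5 : ∑ i ∈ range N2, al n i ≤
      ∑ x ∈ range N2, min (antidiag m n (N1 + x)) (m * n - antidiag m n (N1 + x)) := by
    rw [← sum_range_reflect (fun x => min (antidiag m n (N1 + x))
      (m * n - antidiag m n (N1 + x))) N2]
    apply sum_le_sum
    intro i hi
    rw [mem_range] at hi
    have h6 := antidiag_refl (m := m) (n := n) (l := N1 + (N2 - 1 - i)) (by omega)
    have h7 : m + n - 3 - (N1 + (N2 - 1 - i)) = i := by omega
    rw [h7, antidiag_eq hn (by omega)] at h6
    have := h2 i hi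
    omega
  omega

/-- **Main theorem.**  For all `m ≥ n ≥ 1` every `ν`-chain on the `m × n` grid has weight at most
`D(m, n)`, the weight of the antidiagonal chain. -/
theorem result : ∀ m n : ℕ, 1 ≤ n → n ≤ m → ∀ (L : ℕ) (c : ℕ → ℕ), IsNuChain m n L c →
    weight m n L c ≤ D m n := by
  intro m n hn hnm L c hc
  have hD : ∀ s s' : ℕ, 2 * s ≤ m * n → 2 * s' ≤ m * n → s + s' + n ≤ m * n →
      G n s + G n s' ≤ D m n := by
    intro s s' hs hs' hss
    rcases Nat.even_or_odd' (m - n) with ⟨q, hq | hq⟩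
    · obtain rfl : m = n + 2 * q := by omega
      refine (key_even hn q hs hs' hss).trans ?_
      rw [G_A hn q, two_mul]
      refine D_lower hn (by omega) ?_ ?_ (by omega) (by omega)
      · intro i hi
        have := two_al_le hn q hi
        omega
      · intro i hi
        have := two_al_le hn q hi
        omega
    · obtain rfl : m = n + 2 * q + 1 := by omega
      refine (key_odd hn q hs hs' hss).trans ?_
      rw [G_A hn q, G_A hn (q + 1), add_comm]
      refine D_lower hn (by omega) ?_ ?_ (by omega) (by omega)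
      · intro i hi
        exact two_al_le_odd hn q hi
      · intro i hi
        exact two_al_le_odd hn q (by omega)
  have h2 : n = m ∨ 2 * n ≤ m * n := by
    rcases Nat.lt_or_ge m 2 with h | h
    · left; omega
    · right; exact Nat.mul_le_mul_right n h
  refine chain_bound hn hD h2 hnm L c hc.1 ?_ ?_
  · intro l hl h1 h3
    exact (nu_low hnm h1 h3).trans (hc.2 l hl)
  · intro l hl h1
    exact (nu_high hnm h1 (hc.1 l (by omega))).trans (hc.2 l hl)

end Pool.Agent.Results.MP_00a158_co.AntidiagonalOptimal
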